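import Pool.Agent.H16.TK.Stmt2

/-!
A decreasing sequence of flaps which are not tame.
-/

set_option autoImplicit false

open Set

namespace Pool.Agent.TK

theorem pf_TA1 {C : Type} [MeasurableSpace C] {c0 : C} (hSPL : SPL C c0) : TA1 C c0 := by
  intro b X hX M hM a D hD hT
  have hV : Valid c0 M := hX.val M hM
  have hstep : ∀ (n : ℕ) (p : {p : Set ℕ × List ℕ // IsCp M (ms p.2) p.1 ∧
      ¬ Tame c0 b M p.2 p.1}), ∃ q : {p : Set ℕ × List ℕ // IsCp M (ms p.2) p.1 ∧
      ¬ Tame c0 b M p.2 p.1}, q.1.1 ⊆ p.1.1 ∧ n ∉ q.1.1 := by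
    intro n p
    by_cases hn : n ∈ p.1.1
    · obtain ⟨v, hv, hve, hvT⟩ := hSPL b X hX M hM p.1.2 p.1.1 p.2.1 p.2.2 [n] (by
        intro z hz
        rw [List.mem_singleton] at hz
        rw [hz]
        exact hn)
      have hv2 : v ∉ ms (p.1.2 ++ [n]) := by
        rw [ms_append]
        rintro (h | h)
        · exact Set.disjoint_left.1 p.2.1.disj hv h
        · exact hve h
      have hcp := isCp_cp (M := M) hv2
      refine ⟨⟨(cp M (ms (p.1.2 ++ [n])) v, p.1.2 ++ [n]), hcp, hvT⟩, ?_, ?_⟩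
      · have hE := p.2.1.eq_cp hV hv
        show cp M (ms (p.1.2 ++ [n])) v ⊆ p.1.1
        rw [hE]
        intro u hu
        refine Conn.mono ?_ hu
        rw [ms_append]
        exact Set.subset_union_left
      · intro h
        refine Set.disjoint_left.1 hcp.disj h ?_
        rw [ms_append]
        exact Or.inr (List.mem_singleton.2 rfl)
    · exact ⟨p, subset_rfl, hn⟩
  choose f hf1 hf2 using hstep
  let s : ℕ → {p : Set ℕ × List ℕ // IsCp M (ms p.2) p.1 ∧ ¬ Tame c0 b M p.2 p.1} :=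
    fun n => Nat.rec ⟨(D, a), hD, hT⟩ (fun n p => f n p) n
  have hs : ∀ n, s (n + 1) = f n (s n) := fun n => rfl
  refine ⟨fun n => (s n).1.1, fun n => (s n).1.2, fun n => ⟨(s n).2.1, (s n).2.2, ?_⟩, ?_⟩
  · show (s (n + 1)).1.1 ⊆ (s n).1.1
    rw [hs]
    exact hf1 n (s n)
  · rw [Set.eq_empty_iff_forall_notMem]
    intro x hx
    have h := Set.mem_iInter.1 hx (x + 1)
    have h2 : x ∉ (s (x + 1)).1.1 := by
      rw [hs]
      exact hf2 x (s x)
    exact h2 h

end Pool.Agent.TK
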